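import Pool.Agent.Helper766.Mean.Lower

set_option autoImplicit false

namespace Pool.Agent.Helper766.Mean

open Complex

theorem exp_lower {y : ℝ} (hy : |y| ≤ 3 / 4) : 1 + y + y ^ 2 / 3 ≤ Real.exp y := by
  have h := Real.exp_bound (x := y) (by linarith) (n := 3) (by norm_num)
  simp only [Finset.sum_range_succ, Finset.sum_range_zero, Nat.factorial] at h
  norm_num at h
  have h1 := (abs_le.1 h).1
  have h2 : |y| ^ 3 = |y| * y ^ 2 := by rw [pow_succ, sq_abs]; ring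
  rw [h2] at h1
  nlinarith [sq_nonneg y, abs_nonneg y]

/-- lower bound for the logarithm of `‖1 - w‖` -/
theorem sq_log_lower {w : ℂ} (hw : ‖w‖ ≤ 1 / 20) :
    (‖w‖ ^ 2 - 2 * w.re) ^ 2 / 5 ≤ (Real.log ‖1 - w‖) ^ 2 ∧ |Real.log ‖1 - w‖| ≤ 3 / 4 := by
  have hre := Complex.abs_re_le_norm w
  have hre' := abs_le.1 (hre.trans hw)
  set t := ‖w‖ ^ 2 - 2 * w.re with ht
  have hn := norm_nonneg w
  have ht1 : -(11 / 100) ≤ t ∧ t ≤ 11 / 100 := by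
    constructor
    · nlinarith [sq_nonneg ‖w‖]
    · nlinarith [sq_nonneg ‖w‖]
  have hy : ‖1 - w‖ ^ 2 = 1 + t := by
    rw [ht, ← Complex.normSq_eq_norm_sq, ← Complex.normSq_eq_norm_sq, Complex.normSq_apply,
      Complex.normSq_apply]
    simp only [sub_re, one_re, sub_im, one_im]
    ring
  have hpos : 0 < ‖1 - w‖ := by
    rcases (norm_nonneg (1 - w)).lt_or_eq with h | h
    · exact h
    · rw [← h] at hy; nlinarith [ht1.1]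
  have hlog : Real.log (1 + t) = 2 * Real.log ‖1 - w‖ := by
    rw [← hy, Real.log_pow]; norm_num
  have hl : Real.log ‖1 - w‖ = Real.log (1 + t) / 2 := by rw [hlog]; ring
  have h1t : 0 < 1 + t := by linarith [ht1.1]
  have hu := Real.log_le_sub_one_of_pos h1t
  have hlow := Real.one_sub_inv_le_log_of_pos h1t
  have hinv : 1 - (1 + t)⁻¹ = t / (1 + t) := by field_simp; ring
  rw [hinv] at hlow
  rw [hl]
  constructor
  · -- (t)^2/5 ≤ (log/2)^2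
    have key : (t * (9 / 10)) ^ 2 ≤ (Real.log (1 + t)) ^ 2 := by
      rcases le_total 0 t with h0 | h0
      · have h2 : t * (9 / 10) ≤ t / (1 + t) := by
          rw [le_div_iff₀ h1t]
          nlinarith [ht1.2]
        exact pow_le_pow_left₀ (by positivity) (h2.trans hlow) 2
      · have h2 : Real.log (1 + t) ≤ t := by linarith
        have h3 : (-(t * (9 / 10))) ^ 2 ≤ (-(Real.log (1 + t))) ^ 2 := by
          apply pow_le_pow_left₀ (by linarith)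
          linarith
        simpa using h3
    nlinarith [sq_nonneg t]
  · rw [abs_le]
    constructor
    · have : -(1 / 2) ≤ t / (1 + t) := by
        rw [le_div_iff₀ h1t]; nlinarith [ht1.1]
      linarith
    · linarith [ht1.2]

theorem rpow_lower {lam : ℝ} (h1 : 2 / 5 ≤ lam) (h2 : lam ≤ 2 / 3) {v : ℂ} (hv : 0 < ‖1 - v‖)
    (hb : |Real.log ‖1 - v‖| ≤ 3 / 4) :
    1 + lam * Real.log ‖1 - v‖ + lam ^ 2 / 3 * (Real.log ‖1 - v‖) ^ 2 ≤ ‖1 - v‖ ^ lam := by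
  rw [Real.rpow_def_of_pos hv]
  have h3 : |Real.log ‖1 - v‖ * lam| ≤ 3 / 4 := by
    rw [abs_mul, abs_of_nonneg (by linarith : (0 : ℝ) ≤ lam)]
    nlinarith [abs_nonneg (Real.log ‖1 - v‖)]
  have := exp_lower h3
  have h4 : (Real.log ‖1 - v‖ * lam) ^ 2 / 3 = lam ^ 2 / 3 * (Real.log ‖1 - v‖) ^ 2 := by ring
  rw [h4] at this
  linarith

theorem final_arith {lam G a b l1 l2 l3 l4 s1 s2 s3 s4 : ℝ} (h1 : 2 / 5 ≤ lam)
    (h2 : lam ≤ 2 / 3) (hG0 : 0 ≤ G) (hG : G ≤ 1 / 400) (hnorm : G = a ^ 2 + b ^ 2)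
    (a1 : (G - 2 * a) ^ 2 / 5 ≤ l1 ^ 2) (a2 : (G - 2 * -a) ^ 2 / 5 ≤ l2 ^ 2)
    (a3 : (G - 2 * -b) ^ 2 / 5 ≤ l3 ^ 2) (a4 : (G - 2 * b) ^ 2 / 5 ≤ l4 ^ 2)
    (hl : -(2 * (G * G)) ≤ l1 + l2 + l3 + l4)
    (e1 : 1 + lam * l1 + lam ^ 2 / 3 * l1 ^ 2 ≤ s1)
    (e2 : 1 + lam * l2 + lam ^ 2 / 3 * l2 ^ 2 ≤ s2)
    (e3 : 1 + lam * l3 + lam ^ 2 / 3 * l3 ^ 2 ≤ s3)
    (e4 : 1 + lam * l4 + lam ^ 2 / 3 * l4 ^ 2 ≤ s4) :
    4 * (1 + lam ^ 2 / 8 * G) ≤ s1 + s2 + s3 + s4 := by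
  have hGG : 0 ≤ G * G := mul_nonneg hG0 hG0
  have hsq : 8 * G / 5 ≤ l1 ^ 2 + l2 ^ 2 + l3 ^ 2 + l4 ^ 2 := by
    have h3 : (G - 2 * a) ^ 2 + (G - 2 * -a) ^ 2 + (G - 2 * -b) ^ 2 + (G - 2 * b) ^ 2 =
        4 * (G * G) + 8 * (a ^ 2 + b ^ 2) := by ring
    rw [← hnorm] at h3
    linarith
  have hlam2 : 0 ≤ lam ^ 2 / 3 := by positivity
  have f1 : lam ^ 2 / 3 * (8 * G / 5) ≤ lam ^ 2 / 3 * (l1 ^ 2 + l2 ^ 2 + l3 ^ 2 + l4 ^ 2) :=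
    mul_le_mul_of_nonneg_left hsq hlam2
  have f2 : lam * (-(2 * (G * G))) ≤ lam * (l1 + l2 + l3 + l4) :=
    mul_le_mul_of_nonneg_left hl (by linarith)
  have f3 : lam * (2 * (G * G)) ≤ lam ^ 2 * (1 / 30) * G := by
    have h5 : 2 * G ≤ lam * (1 / 30) := by linarith
    have h6 : (lam * G) * (2 * G) ≤ (lam * G) * (lam * (1 / 30)) :=
      mul_le_mul_of_nonneg_left h5 (mul_nonneg (by linarith) hG0)
    have h7 : (lam * G) * (2 * G) = lam * (2 * (G * G)) := by ring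
    have h8 : (lam * G) * (lam * (1 / 30)) = lam ^ 2 * (1 / 30) * G := by ring
    linarith
  have f4 : 0 ≤ lam ^ 2 * G := mul_nonneg (sq_nonneg _) hG0
  have f5 : lam ^ 2 / 3 * (8 * G / 5) = lam ^ 2 * G * (8 / 15) := by ring
  have f6 : lam ^ 2 * (1 / 30) * G = lam ^ 2 * G * (1 / 30) := by ring
  have f7 : 4 * (1 + lam ^ 2 / 8 * G) = 4 + lam ^ 2 * G * (1 / 2) := by ring
  have f8 : lam * (-(2 * (G * G))) = -(lam * (2 * (G * G))) := by ring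
  have f9 : lam * (l1 + l2 + l3 + l4) = lam * l1 + lam * l2 + lam * l3 + lam * l4 := by ring
  have f10 : lam ^ 2 / 3 * (l1 ^ 2 + l2 ^ 2 + l3 ^ 2 + l4 ^ 2) = lam ^ 2 / 3 * l1 ^ 2 +
    lam ^ 2 / 3 * l2 ^ 2 + lam ^ 2 / 3 * l3 ^ 2 + lam ^ 2 / 3 * l4 ^ 2 := by ring
  rw [f5, f10] at f1
  rw [f8, f9] at f2
  rw [f6] at f3
  rw [f7]
  linarith

theorem avg_ineq {lam : ℝ} (h1 : 2 / 5 ≤ lam) (h2 : lam ≤ 2 / 3) {w : ℂ} (hw : ‖w‖ ≤ 1 / 20) :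
    4 * (1 + lam ^ 2 / 8 * ‖w‖ ^ 2) ≤
      ‖1 - w‖ ^ lam + ‖1 - (-1) * w‖ ^ lam + ‖1 - I * w‖ ^ lam + ‖1 - (-I) * w‖ ^ lam := by
  have hn := norm_nonneg w
  have n1 : ‖(-1 : ℂ) * w‖ = ‖w‖ := by rw [norm_mul]; simp
  have n2 : ‖I * w‖ = ‖w‖ := by rw [norm_mul]; simp
  have n3 : ‖(-I) * w‖ = ‖w‖ := by rw [norm_mul]; simp
  obtain ⟨a1, b1⟩ := sq_log_lower hw
  obtain ⟨a2, b2⟩ := sq_log_lower (w := (-1) * w) (by rw [n1]; exact hw)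
  obtain ⟨a3, b3⟩ := sq_log_lower (w := I * w) (by rw [n2]; exact hw)
  obtain ⟨a4, b4⟩ := sq_log_lower (w := (-I) * w) (by rw [n3]; exact hw)
  rw [n1] at a2
  rw [n2] at a3
  rw [n3] at a4
  have r2 : ((-1 : ℂ) * w).re = -w.re := by simp
  have r3 : (I * w).re = -w.im := by simp
  have r4 : ((-I) * w).re = w.im := by simp
  rw [r2] at a2
  rw [r3] at a3
  rw [r4] at a4
  have hpos : ∀ v : ℂ, ‖v‖ ≤ 1 / 20 → 0 < ‖1 - v‖ := by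
    intro v hv
    apply norm_pos_iff.2
    intro h0
    have : v = 1 := (sub_eq_zero.1 h0).symm
    rw [this, norm_one] at hv
    norm_num at hv
  have p1 := hpos w hw
  have p2 := hpos ((-1) * w) (by rw [n1]; exact hw)
  have p3 := hpos (I * w) (by rw [n2]; exact hw)
  have p4 := hpos ((-I) * w) (by rw [n3]; exact hw)
  -- sum of logs
  have hsum : Real.log ‖1 - w‖ + Real.log ‖1 - (-1) * w‖ + Real.log ‖1 - I * w‖ +
      Real.log ‖1 - (-I) * w‖ = Real.log ‖1 - w ^ 4‖ := by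
    rw [← Real.log_mul p1.ne' p2.ne', ← Real.log_mul (by positivity) p3.ne',
      ← Real.log_mul (by positivity) p4.ne', ← norm_mul, ← norm_mul, ← norm_mul]
    congr 2
    have hI : I ^ 2 = -1 := I_sq
    linear_combination (-(w ^ 2) + w ^ 4) * hI
  have hq : 1 - ‖w‖ ^ 4 ≤ ‖1 - w ^ 4‖ := by
    have h3 : ‖(1 : ℂ)‖ ≤ ‖1 - w ^ 4‖ + ‖w ^ 4‖ := by
      have : (1 : ℂ) = (1 - w ^ 4) + w ^ 4 := by ring
      calc ‖(1 : ℂ)‖ = ‖(1 - w ^ 4) + w ^ 4‖ := by rw [← this]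
        _ ≤ _ := norm_add_le _ _
    rw [norm_one, norm_pow] at h3
    linarith
  have hG : ‖w‖ ^ 2 ≤ 1 / 400 := by nlinarith
  have hG4 : ‖w‖ ^ 4 = ‖w‖ ^ 2 * ‖w‖ ^ 2 := by ring
  have hG0 : 0 ≤ ‖w‖ ^ 2 := by positivity
  have hlogsum : -(2 * (‖w‖ ^ 2 * ‖w‖ ^ 2)) ≤ Real.log ‖1 - w ^ 4‖ := by
    have hq0 : 0 < 1 - ‖w‖ ^ 4 := by rw [hG4]; nlinarith
    have h3 : Real.log (1 - ‖w‖ ^ 4) ≤ Real.log ‖1 - w ^ 4‖ := Real.log_le_log hq0 hq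
    have h4 := Real.one_sub_inv_le_log_of_pos hq0
    have h5 : 1 - (1 - ‖w‖ ^ 4)⁻¹ = -(‖w‖ ^ 4 / (1 - ‖w‖ ^ 4)) := by field_simp; ring
    have h6 : ‖w‖ ^ 4 / (1 - ‖w‖ ^ 4) ≤ 2 * (‖w‖ ^ 2 * ‖w‖ ^ 2) := by
      rw [div_le_iff₀ hq0, hG4]
      have hGG : 0 ≤ ‖w‖ ^ 2 * ‖w‖ ^ 2 := mul_nonneg hG0 hG0
      have hGG1 : ‖w‖ ^ 2 * ‖w‖ ^ 2 ≤ 1 / 2 := by nlinarith
      have : ‖w‖ ^ 2 * ‖w‖ ^ 2 * (‖w‖ ^ 2 * ‖w‖ ^ 2) ≤ ‖w‖ ^ 2 * ‖w‖ ^ 2 * (1 / 2) :=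
        mul_le_mul_of_nonneg_left hGG1 hGG
      linarith
    linarith
  have e1 := rpow_lower h1 h2 p1 b1
  have e2 := rpow_lower h1 h2 p2 b2
  have e3 := rpow_lower h1 h2 p3 b3
  have e4 := rpow_lower h1 h2 p4 b4
  have hnorm : ‖w‖ ^ 2 = w.re ^ 2 + w.im ^ 2 := by
    rw [← Complex.normSq_eq_norm_sq, Complex.normSq_apply]; ring
  have hl4 := hsum.symm ▸ hlogsum
  exact final_arith h1 h2 hG0 hG hnorm a1 a2 a3 a4 hl4 e1 e2 e3 e4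

end Pool.Agent.Helper766.Mean
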