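import Mathlib

set_option autoImplicit false

namespace Pool.Agent.Helper766.Mean

/-- The class `S`: analytic and injective functions on the unit disc with `f 0 = 0`,
`f' 0 = 1`. -/
def ClassS (f : ℂ → ℂ) : Prop :=
  DifferentiableOn ℂ f (Metric.ball 0 1) ∧ Set.InjOn f (Metric.ball 0 1) ∧ f 0 = 0 ∧
    deriv f 0 = 1

/-- The integral mean `I_lam(r, f')` of order `lam` of the derivative of `f` over the circle of
radius `r`. -/
noncomputable def intMean (lam r : ℝ) (f : ℂ → ℂ) : ℝ :=
  ((1 / (2 * Real.pi)) * ∫ t in (0 : ℝ)..(2 * Real.pi),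
    ‖deriv f ((r : ℂ) * Complex.exp ((t : ℂ) * Complex.I))‖ ^ lam) ^ (1 / lam)

/-- The Koebe function `z / (1 - z)^2`. -/
noncomputable def koebe (z : ℂ) : ℂ := z / (1 - z) ^ 2

/-- The best constant `C_lam`, the supremum of `I_lam(r, f') / I_lam(r, k')` over `f` in `S` and
`0 < r < 1`, as an extended nonnegative real number. -/
noncomputable def bestConst (lam : ℝ) : ENNReal :=
  ⨆ (f : ℂ → ℂ) (_ : ClassS f) (r : ℝ) (_ : r ∈ Set.Ioo (0 : ℝ) 1),
    ENNReal.ofReal (intMean lam r f / intMean lam r koebe)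

end Pool.Agent.Helper766.Mean
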