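import Pool.Agent.Helper766.Mean.Avg

set_option autoImplicit false

namespace Pool.Agent.Helper766.Mean

open Complex MeasureTheory

theorem norm_circ {r : ℝ} (hr : 0 ≤ r) (t : ℝ) : ‖(r : ℂ) * exp ((t : ℂ) * I)‖ = r := by
  rw [norm_mul, Complex.norm_real, Complex.norm_exp_ofReal_mul_I, mul_one,
    Real.norm_of_nonneg hr]

theorem continuous_circ (r : ℝ) : Continuous (fun t : ℝ => (r : ℂ) * exp ((t : ℂ) * I)) := by
  fun_prop

theorem continuous_deriv {f : ℂ → ℂ} (hf : DifferentiableOn ℂ f (Metric.ball 0 1)) {r : ℝ}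
    (hr : 0 ≤ r) (hr1 : r < 1) :
    Continuous (fun t : ℝ => deriv f ((r : ℂ) * exp ((t : ℂ) * I))) := by
  have h1 : ContinuousOn (deriv f) (Metric.ball 0 1) :=
    (hf.deriv Metric.isOpen_ball).continuousOn
  refine h1.comp_continuous (continuous_circ r) ?_
  intro t
  rw [mem_ball_zero_iff, norm_circ hr]
  exact hr1

theorem continuous_integrand {f : ℂ → ℂ} (hf : DifferentiableOn ℂ f (Metric.ball 0 1)) {r : ℝ}
    (hr : 0 ≤ r) (hr1 : r < 1) {lam : ℝ} (hl : 0 ≤ lam) :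
    Continuous (fun t : ℝ => ‖deriv f ((r : ℂ) * exp ((t : ℂ) * I))‖ ^ lam) :=
  (continuous_deriv hf hr hr1).norm.rpow_const (fun _ => Or.inr hl)

theorem koebe_diff : DifferentiableOn ℂ koebe (Metric.ball 0 1) := by
  intro z hz
  rw [mem_ball_zero_iff] at hz
  exact (hasDerivAt_koebe hz).differentiableAt.differentiableWithinAt

theorem circ_re (r t : ℝ) : ((r : ℂ) * exp ((t : ℂ) * I)).re = r * Real.cos t := by
  rw [Complex.re_ofReal_mul, Complex.exp_ofReal_mul_I_re]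

theorem circ_im (r t : ℝ) : ((r : ℂ) * exp ((t : ℂ) * I)).im = r * Real.sin t := by
  rw [Complex.im_ofReal_mul, Complex.exp_ofReal_mul_I_im]

theorem normSq_one_sub_circ (r t : ℝ) :
    ‖1 - (r : ℂ) * exp ((t : ℂ) * I)‖ ^ 2 = 1 - 2 * r * Real.cos t + r ^ 2 := by
  rw [← Complex.normSq_eq_norm_sq, Complex.normSq_apply, sub_re, sub_im, circ_re, circ_im,
    one_re, one_im]
  nlinarith [Real.sin_sq_add_cos_sq t]

theorem normSq_one_add_circ (r t : ℝ) :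
    ‖1 + (r : ℂ) * exp ((t : ℂ) * I)‖ ^ 2 = 1 + 2 * r * Real.cos t + r ^ 2 := by
  rw [← Complex.normSq_eq_norm_sq, Complex.normSq_apply, add_re, add_im, circ_re, circ_im,
    one_re, one_im]
  nlinarith [Real.sin_sq_add_cos_sq t]

theorem circ_sq (r t : ℝ) :
    ((r : ℂ) * exp ((t : ℂ) * I)) ^ 2 = ((r ^ 2 : ℝ) : ℂ) * exp (((2 * t : ℝ) : ℂ) * I) := by
  rw [mul_pow, ← Complex.exp_nat_mul]
  push_cast
  congr 2
  ring

theorem sin_half_lower {t : ℝ} (h0 : 0 < t) (h1 : t < 2 * Real.pi) :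
    (t / Real.pi ≤ Real.sin (t / 2) ∨ (2 * Real.pi - t) / Real.pi ≤ Real.sin (t / 2)) := by
  have hp := Real.pi_pos
  rcases le_total t Real.pi with h | h
  · left
    have := Real.mul_le_sin (x := t / 2) (by linarith) (by linarith)
    calc t / Real.pi = 2 / Real.pi * (t / 2) := by field_simp
      _ ≤ _ := this
  · right
    have h3 := Real.mul_le_sin (x := Real.pi - t / 2) (by linarith) (by linarith)
    rw [Real.sin_pi_sub] at h3
    calc (2 * Real.pi - t) / Real.pi = 2 / Real.pi * (Real.pi - t / 2) := by field_simp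
      _ ≤ _ := h3

theorem one_sub_circ_lower {r : ℝ} (hr : 1 / 2 ≤ r) {t : ℝ} (h0 : 0 < t)
    (h1 : t < 2 * Real.pi) :
    Real.sin (t / 2) ≤ ‖1 - (r : ℂ) * exp ((t : ℂ) * I)‖ := by
  have h2 := normSq_one_sub_circ r t
  have h3 : Real.cos t = 1 - 2 * Real.sin (t / 2) ^ 2 := by
    have := Real.cos_two_mul' (t / 2)
    rw [show 2 * (t / 2) = t by ring] at this
    nlinarith [Real.sin_sq_add_cos_sq (t / 2)]
  have h4 : Real.sin (t / 2) ^ 2 ≤ ‖1 - (r : ℂ) * exp ((t : ℂ) * I)‖ ^ 2 := by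
    rw [h2]
    have h5 := Real.cos_le_one t
    nlinarith [sq_nonneg (1 - r), sq_nonneg (Real.sin (t / 2))]
  exact le_of_sq_le_sq h4 (norm_nonneg _)

/-- the majorant -/
noncomputable def maj (s t : ℝ) : ℝ := Real.pi ^ s * (t ^ (-s) + (2 * Real.pi - t) ^ (-s))

theorem maj_integrable {s : ℝ} (hs : s < 1) :
    IntervalIntegrable (maj s) volume 0 (2 * Real.pi) := by
  have h1 : IntervalIntegrable (fun t : ℝ => t ^ (-s)) volume 0 (2 * Real.pi) :=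
    intervalIntegral.intervalIntegrable_rpow' (by linarith)
  have h2 := h1.comp_sub_left (2 * Real.pi)
  rw [sub_zero, sub_self] at h2
  exact (h1.add h2.symm).const_mul _

theorem rpow_neg_le_maj {s : ℝ} (hs : 0 < s) {r : ℝ} (hr : 1 / 2 ≤ r) {t : ℝ} (h0 : 0 < t)
    (h1 : t < 2 * Real.pi) :
    ‖1 - (r : ℂ) * exp ((t : ℂ) * I)‖ ^ (-s) ≤ maj s t := by
  have hp := Real.pi_pos
  have hl := one_sub_circ_lower hr h0 h1
  have a1 : 0 < 2 * Real.pi - t := by linarith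
  have q1 : 0 ≤ t ^ (-s) := Real.rpow_nonneg h0.le _
  have q2 : 0 ≤ (2 * Real.pi - t) ^ (-s) := Real.rpow_nonneg a1.le _
  have q3 : 0 ≤ Real.pi ^ s := Real.rpow_nonneg hp.le _
  have key : ∀ y : ℝ, 0 < y → y / Real.pi ≤ ‖1 - (r : ℂ) * exp ((t : ℂ) * I)‖ →
      ‖1 - (r : ℂ) * exp ((t : ℂ) * I)‖ ^ (-s) ≤ Real.pi ^ s * y ^ (-s) := by
    intro y hy hy2
    have h3 := Real.rpow_le_rpow_of_nonpos (div_pos hy hp) hy2 (by linarith : -s ≤ 0)
    refine h3.trans (le_of_eq ?_)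
    rw [Real.div_rpow hy.le hp.le, Real.rpow_neg hp.le, div_inv_eq_mul, mul_comm]
  unfold maj
  rcases sin_half_lower h0 h1 with h | h
  · refine (key t h0 (h.trans hl)).trans ?_
    apply mul_le_mul_of_nonneg_left _ q3
    linarith
  · refine (key _ a1 (h.trans hl)).trans ?_
    apply mul_le_mul_of_nonneg_left _ q3
    linarith

theorem koebe_le {lam : ℝ} (h1 : 2 / 5 < lam) (h2 : lam < 2 / 3) {r : ℝ} (hr : 1 / 2 ≤ r)
    (hr1 : r < 1) {t : ℝ} (h0 : 0 < t) (ht : t < 2 * Real.pi) :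
    ‖deriv koebe ((r : ℂ) * exp ((t : ℂ) * I))‖ ^ lam ≤
      2 * (1 - r) ^ (-(3 * lam / 2)) * maj (3 * lam / 2) t := by
  have hn := norm_circ (r := r) (by linarith) t
  set z := (r : ℂ) * exp ((t : ℂ) * I) with hz
  have hz1 : ‖z‖ < 1 := by rw [hn]; exact hr1
  rw [deriv_koebe hz1, norm_div, norm_pow]
  have p1 : 0 < ‖1 - z‖ := norm_pos_iff.2 (one_sub_ne hz1)
  have hz2 : ‖1 + z‖ ≤ 2 := by
    calc ‖1 + z‖ ≤ ‖(1 : ℂ)‖ + ‖z‖ := norm_add_le _ _
      _ ≤ 2 := by rw [norm_one]; linarith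
  rw [Real.div_rpow (norm_nonneg _) (by positivity)]
  have e1 : ‖1 + z‖ ^ lam ≤ 2 := by
    calc ‖1 + z‖ ^ lam ≤ (2 : ℝ) ^ lam := Real.rpow_le_rpow (norm_nonneg _) hz2 (by linarith)
      _ ≤ (2 : ℝ) ^ (1 : ℝ) := Real.rpow_le_rpow_of_exponent_le (by norm_num) (by linarith)
      _ = 2 := Real.rpow_one 2
  have e2 : (‖1 - z‖ ^ 3) ^ lam = ‖1 - z‖ ^ (3 * lam) := by
    rw [← Real.rpow_natCast, ← Real.rpow_mul (norm_nonneg _)]
    norm_num
  rw [e2, div_eq_mul_inv, ← Real.rpow_neg (norm_nonneg _)]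
  have e3 : ‖1 - z‖ ^ (-(3 * lam)) = ‖1 - z‖ ^ (-(3 * lam / 2)) * ‖1 - z‖ ^ (-(3 * lam / 2)) := by
    rw [← Real.rpow_add p1]; congr 1; ring
  have e4 : ‖1 - z‖ ^ (-(3 * lam / 2)) ≤ (1 - r) ^ (-(3 * lam / 2)) := by
    apply Real.rpow_le_rpow_of_nonpos (by linarith) _ (by linarith)
    have h3 : ‖(1 : ℂ)‖ ≤ ‖1 - z‖ + ‖z‖ := by
      have : (1 : ℂ) = (1 - z) + z := by ring
      calc ‖(1 : ℂ)‖ = ‖(1 - z) + z‖ := by rw [← this]
        _ ≤ _ := norm_add_le _ _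
    rw [norm_one, hn] at h3
    linarith
  have e5 : ‖1 - z‖ ^ (-(3 * lam / 2)) ≤ maj (3 * lam / 2) t :=
    rpow_neg_le_maj (by linarith) hr h0 ht
  have n1 : 0 ≤ ‖1 - z‖ ^ (-(3 * lam / 2)) := Real.rpow_nonneg (norm_nonneg _) _
  have n2 : 0 ≤ (1 - r) ^ (-(3 * lam / 2)) := Real.rpow_nonneg (by linarith) _
  rw [e3]
  calc ‖1 + z‖ ^ lam * (‖1 - z‖ ^ (-(3 * lam / 2)) * ‖1 - z‖ ^ (-(3 * lam / 2)))
      ≤ 2 * ((1 - r) ^ (-(3 * lam / 2)) * maj (3 * lam / 2) t) := by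
        apply mul_le_mul e1 _ (mul_nonneg n1 n1) (by norm_num)
        exact mul_le_mul e4 e5 n1 n2
    _ = _ := by ring

theorem koebe_integral_le {lam : ℝ} (h1 : 2 / 5 < lam) (h2 : lam < 2 / 3) {r : ℝ}
    (hr : 1 / 2 ≤ r) (hr1 : r < 1) :
    ∫ t in (0 : ℝ)..(2 * Real.pi), ‖deriv koebe ((r : ℂ) * exp ((t : ℂ) * I))‖ ^ lam ≤
      2 * (1 - r) ^ (-(3 * lam / 2)) * ∫ t in (0 : ℝ)..(2 * Real.pi), maj (3 * lam / 2) t := by
  have hp := Real.pi_pos
  rw [← intervalIntegral.integral_const_mul]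
  apply intervalIntegral.integral_mono_on_of_le_Ioo (by positivity)
  · exact (continuous_integrand koebe_diff (by linarith) hr1 (by linarith)).intervalIntegrable _ _
  · exact (maj_integrable (by linarith)).const_mul _
  · intro t ht
    exact koebe_le h1 h2 hr hr1 ht.1 ht.2

end Pool.Agent.Helper766.Mean
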