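import Pool.Agent.Helper766.Mean.Map

set_option autoImplicit false

namespace Pool.Agent.Helper766.Mean

open Complex

theorem one_sub_ne {z : ℂ} (hz : ‖z‖ < 1) : 1 - z ≠ 0 := by
  intro h
  have : z = 1 := (sub_eq_zero.1 h).symm
  rw [this, norm_one] at hz
  exact lt_irrefl _ hz

theorem one_add_ne {z : ℂ} (hz : ‖z‖ < 1) : 1 + z ≠ 0 := by
  intro h
  have : z = -1 := by linear_combination h
  rw [this, norm_neg, norm_one] at hz
  exact lt_irrefl _ hz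

theorem koebe_injOn : Set.InjOn koebe (Metric.ball 0 1) := by
  intro z hz w hw h
  rw [mem_ball_zero_iff] at hz hw
  have h1 := one_sub_ne hz
  have h2 := one_sub_ne hw
  unfold koebe at h
  rw [div_eq_div_iff (pow_ne_zero 2 h1) (pow_ne_zero 2 h2)] at h
  have h3 : (z - w) * (1 - z * w) = 0 := by linear_combination h
  rcases mul_eq_zero.1 h3 with h4 | h4
  · exact sub_eq_zero.1 h4
  · exfalso
    have h5 : z * w = 1 := (sub_eq_zero.1 h4).symm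
    have h6 : ‖z‖ * ‖w‖ = 1 := by rw [← norm_mul, h5, norm_one]
    nlinarith [norm_nonneg z, norm_nonneg w]

theorem hasDerivAt_koebe {z : ℂ} (hz : ‖z‖ < 1) :
    HasDerivAt koebe ((1 + z) / (1 - z) ^ 3) z := by
  have h1 := one_sub_ne hz
  have h2 : HasDerivAt (fun w : ℂ => (1 - w) ^ 2) (2 * (1 - z) * (-1)) z := by
    have := ((hasDerivAt_id z).const_sub (1 : ℂ)).pow 2
    refine this.congr_deriv ?_
    simp
  have h3 := (hasDerivAt_id z).div h2 (pow_ne_zero 2 h1)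
  refine h3.congr_deriv ?_
  simp only [id]
  field_simp
  ring

/-- the competing function -/
noncomputable def F (x : ℝ) (N : ℕ) (u z : ℂ) : ℂ := exp (x : ℂ) * koebe (P x N u z)

/-- the oscillating factor -/
noncomputable def g (x : ℝ) (N : ℕ) (u z : ℂ) : ℂ := x * N / 2 * (u * z ^ N * (1 - z ^ 2) ^ 2)

theorem hasDerivAt_F {x : ℝ} (hx : 0 ≤ x) (N : ℕ) (hN : 1 ≤ N) {u z : ℂ} (hu : ‖u‖ = 1)
    (hz : ‖z‖ < 1) : HasDerivAt (F x N u) (exp (x : ℂ) * (((1 + P x N u z) / (1 - P x N u z) ^ 3) *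
      (exp (-(x : ℂ) * W N u z) * (1 - x * (z * W' N u z))))) z := by
  have h1 := (hasDerivAt_koebe (norm_P_lt hx N hu hz)).comp z (hasDerivAt_P x N hN u z)
  exact h1.const_mul (exp (x : ℂ))

theorem classS_F {x : ℝ} (hx : 0 ≤ x) (N : ℕ) (hN : 1 ≤ N) (hxN : x * N ≤ 1 / 40) {u : ℂ}
    (hu : ‖u‖ = 1) : ClassS (F x N u) := by
  have hP0 : P x N u 0 = 0 := by unfold P; ring
  refine ⟨?_, ?_, ?_, ?_⟩
  · intro z hz
    rw [mem_ball_zero_iff] at hz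
    exact (hasDerivAt_F hx N hN hu hz).differentiableAt.differentiableWithinAt
  · intro z hz w hw h
    unfold F at h
    have h1 := mul_left_cancel₀ (exp_ne_zero _) h
    have hz' : P x N u z ∈ Metric.ball (0 : ℂ) 1 := by
      rw [mem_ball_zero_iff] at hz ⊢
      exact norm_P_lt hx N hu hz
    have hw' : P x N u w ∈ Metric.ball (0 : ℂ) 1 := by
      rw [mem_ball_zero_iff] at hw ⊢
      exact norm_P_lt hx N hu hw
    exact injOn_P hx N hN hxN hu hz hw (koebe_injOn hz' hw' h1)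
  · unfold F koebe
    rw [hP0]; simp
  · rw [(hasDerivAt_F hx N hN hu (z := 0) (by simp)).deriv, hP0]
    have hW : W N u 0 = 1 := by
      unfold W
      have : (0 : ℂ) ^ N = 0 := zero_pow (by omega)
      rw [this]; simp
    rw [hW]
    simp only [add_zero, sub_zero, one_pow, div_one, zero_mul, mul_zero, mul_one, one_mul]
    rw [← exp_add]
    simp

theorem deriv_koebe {z : ℂ} (hz : ‖z‖ < 1) : deriv koebe z = (1 + z) / (1 - z) ^ 3 :=
  (hasDerivAt_koebe hz).deriv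

theorem norm_g_le {x : ℝ} (hx : 0 ≤ x) (N : ℕ) (hxN : x * N ≤ 1 / 40) {u z : ℂ}
    (hu : ‖u‖ = 1) (hz : ‖z‖ ≤ 1) : ‖g x N u z‖ ≤ 1 / 20 := by
  have h2 := norm_one_sub_le hz
  have h0 := norm_nonneg (1 - z ^ 2)
  have h3 : ‖z‖ ^ N ≤ 1 := pow_le_one₀ (norm_nonneg _) hz
  have h4 : ‖u * z ^ N * (1 - z ^ 2) ^ 2‖ ≤ 4 := by
    rw [norm_mul, norm_mul, hu, norm_pow, norm_pow, one_mul]
    have h5 : ‖1 - z ^ 2‖ ^ 2 ≤ 4 := by nlinarith
    have h6 : 0 ≤ ‖1 - z ^ 2‖ ^ 2 := by positivity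
    nlinarith
  unfold g
  rw [norm_mul]
  have h5 : ‖(x : ℂ) * N / 2‖ = x * N / 2 := by
    rw [norm_div, norm_mul, Complex.norm_real, Real.norm_of_nonneg hx, Complex.norm_natCast]
    simp
  rw [h5]
  have h6 : 0 ≤ x * N / 2 := by positivity
  have h7 : x * N / 2 * ‖u * z ^ N * (1 - z ^ 2) ^ 2‖ ≤ x * N / 2 * 4 :=
    mul_le_mul_of_nonneg_left h4 h6
  linarith

theorem lower {x : ℝ} (hx : 0 ≤ x) (N : ℕ) (hN : 1 ≤ N) (hxN : x * N ≤ 1 / 40)
    (hx1 : x ≤ 1 / 48) {u z : ℂ} (hu : ‖u‖ = 1) (hz : ‖z‖ < 1) :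
    (1 - 48 * x) * (‖deriv koebe z‖ * ‖1 - g x N u z‖) ≤ ‖deriv (F x N u) z‖ := by
  rw [(hasDerivAt_F hx N hN hu hz).deriv, deriv_koebe hz]
  have hN' : (1 : ℝ) ≤ N := by exact_mod_cast hN
  have hx40 : x ≤ 1 / 40 := by nlinarith
  have hd := norm_sub_P hx hx40 N hu hz.le
  have hfac : ‖1 - z ^ 2‖ = ‖1 - z‖ * ‖1 + z‖ := by
    rw [← norm_mul]; congr 1; ring
  have hz1 : ‖1 - z‖ ≤ 2 := by
    calc ‖1 - z‖ ≤ ‖(1 : ℂ)‖ + ‖z‖ := norm_sub_le _ _
      _ ≤ 2 := by rw [norm_one]; linarith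
  have hz2 : ‖1 + z‖ ≤ 2 := by
    calc ‖1 + z‖ ≤ ‖(1 : ℂ)‖ + ‖z‖ := norm_add_le _ _
      _ ≤ 2 := by rw [norm_one]; linarith
  have p1 : 0 < ‖1 - z‖ := norm_pos_iff.2 (one_sub_ne hz)
  have p2 : 0 < ‖1 + z‖ := norm_pos_iff.2 (one_add_ne hz)
  have q1 : 0 < ‖1 - P x N u z‖ := norm_pos_iff.2 (one_sub_ne (norm_P_lt hx N hu hz))
  -- bounds for the factors
  have b1 : (1 - 8 * x) * ‖1 + z‖ ≤ ‖1 + P x N u z‖ := by
    have h1 : ‖1 + z‖ ≤ ‖1 + P x N u z‖ + ‖z - P x N u z‖ := by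
      have : 1 + z = (1 + P x N u z) + (z - P x N u z) := by ring
      calc ‖1 + z‖ = ‖(1 + P x N u z) + (z - P x N u z)‖ := by rw [← this]
        _ ≤ _ := norm_add_le _ _
    have h2 : ‖z - P x N u z‖ ≤ 8 * x * ‖1 + z‖ := by
      rw [hfac] at hd
      have : 4 * x * (‖1 - z‖ * ‖1 + z‖) ≤ 4 * x * (2 * ‖1 + z‖) := by
        apply mul_le_mul_of_nonneg_left _ (by linarith)
        exact mul_le_mul_of_nonneg_right hz1 p2.le
      linarith
    linarith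
  have b2 : ‖1 - P x N u z‖ ≤ (1 + 8 * x) * ‖1 - z‖ := by
    have h1 : ‖1 - P x N u z‖ ≤ ‖1 - z‖ + ‖z - P x N u z‖ := by
      have : 1 - P x N u z = (1 - z) + (z - P x N u z) := by ring
      rw [this]; exact norm_add_le _ _
    have h2 : ‖z - P x N u z‖ ≤ 8 * x * ‖1 - z‖ := by
      rw [hfac] at hd
      have : 4 * x * (‖1 - z‖ * ‖1 + z‖) ≤ 4 * x * (‖1 - z‖ * 2) := by
        apply mul_le_mul_of_nonneg_left _ (by linarith)
        exact mul_le_mul_of_nonneg_left hz2 p1.le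
      linarith
    linarith
  have b3 : (1 - 8 * x) * (1 - 24 * x) * (‖1 + z‖ / ‖1 - z‖ ^ 3) ≤
      ‖1 + P x N u z‖ / ‖1 - P x N u z‖ ^ 3 := by
    have h1 : ‖1 - P x N u z‖ ^ 3 ≤ ((1 + 8 * x) * ‖1 - z‖) ^ 3 :=
      pow_le_pow_left₀ (norm_nonneg _) b2 3
    have h24 : 0 ≤ 1 - 24 * x := by linarith
    have h8 : 0 ≤ 1 - 8 * x := by linarith
    rw [le_div_iff₀ (by positivity)]
    calc (1 - 8 * x) * (1 - 24 * x) * (‖1 + z‖ / ‖1 - z‖ ^ 3) * ‖1 - P x N u z‖ ^ 3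
        ≤ (1 - 8 * x) * (1 - 24 * x) * (‖1 + z‖ / ‖1 - z‖ ^ 3) * ((1 + 8 * x) * ‖1 - z‖) ^ 3 := by
          apply mul_le_mul_of_nonneg_left h1; positivity
      _ = ((1 + 8 * x) ^ 3 * (1 - 24 * x)) * ((1 - 8 * x) * ‖1 + z‖) := by
          field_simp
      _ ≤ 1 * ((1 - 8 * x) * ‖1 + z‖) := by
          apply mul_le_mul_of_nonneg_right _ (by positivity)
          have : (1 + 8 * x) ^ 3 * (1 - 24 * x) =
            1 - (6 * (8 * x) ^ 2 + 8 * (8 * x) ^ 3 + 3 * (8 * x) ^ 4) := by ring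
          rw [this]
          have : 0 ≤ 6 * (8 * x) ^ 2 + 8 * (8 * x) ^ 3 + 3 * (8 * x) ^ 4 := by positivity
          linarith
      _ ≤ ‖1 + P x N u z‖ := by linarith
  have b4 : 1 - 4 * x ≤ ‖exp (-(x : ℂ) * W N u z)‖ := by
    rw [Complex.norm_exp]
    have h1 : (-(x : ℂ) * W N u z).re = -(x * (W N u z).re) := by simp
    have h2 : (W N u z).re ≤ 4 := by
      have := Complex.re_le_norm (W N u z)
      have := norm_W_le N hu hz.le
      have := norm_one_sub_le hz.le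
      linarith
    have h3 := Real.add_one_le_exp (-(x : ℂ) * W N u z).re
    rw [h1] at h3 ⊢
    have : x * (W N u z).re ≤ x * 4 := mul_le_mul_of_nonneg_left h2 hx
    linarith
  have hg := norm_g_le hx N hxN hu hz.le
  have hg1 : 1 / 2 ≤ ‖1 - g x N u z‖ := by
    have h1 : ‖(1 : ℂ)‖ ≤ ‖1 - g x N u z‖ + ‖g x N u z‖ := by
      have : (1 : ℂ) = (1 - g x N u z) + g x N u z := by ring
      calc ‖(1 : ℂ)‖ = ‖(1 - g x N u z) + g x N u z‖ := by rw [← this]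
        _ ≤ _ := norm_add_le _ _
    rw [norm_one] at h1
    linarith
  have b5 : (1 - 12 * x) * ‖1 - g x N u z‖ ≤ ‖1 - x * (z * W' N u z)‖ := by
    have h1 : 1 - g x N u z = (1 - x * (z * W' N u z)) -
        x * (2 * z ^ 2 + 2 * (u * z ^ (N + 2) * (1 - z ^ 2))) := by
      unfold g W'
      obtain ⟨m, rfl⟩ : ∃ m, N = m + 1 := ⟨N - 1, by omega⟩
      simp only [Nat.add_sub_cancel]
      ring
    have h2 : ‖1 - g x N u z‖ ≤ ‖1 - x * (z * W' N u z)‖ +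
        ‖(x : ℂ) * (2 * z ^ 2 + 2 * (u * z ^ (N + 2) * (1 - z ^ 2)))‖ := by
      rw [h1]; exact norm_sub_le _ _
    have h3 : ‖(x : ℂ) * (2 * z ^ 2 + 2 * (u * z ^ (N + 2) * (1 - z ^ 2)))‖ ≤ x * 6 := by
      rw [norm_mul, Complex.norm_real, Real.norm_of_nonneg hx]
      apply mul_le_mul_of_nonneg_left _ hx
      have n2 : ‖(2 : ℂ)‖ = 2 := by simp
      calc _ ≤ ‖2 * z ^ 2‖ + ‖2 * (u * z ^ (N + 2) * (1 - z ^ 2))‖ := norm_add_le _ _
        _ = 2 * ‖z‖ ^ 2 + 2 * (‖z‖ ^ (N + 2) * ‖1 - z ^ 2‖) := by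
            rw [norm_mul, norm_mul, norm_mul, norm_mul, n2, hu, norm_pow, norm_pow, one_mul]
        _ ≤ 2 * 1 + 2 * (1 * 2) := by
            have e1 : ‖z‖ ^ 2 ≤ 1 := pow_le_one₀ (norm_nonneg _) hz.le
            have e2 : ‖z‖ ^ (N + 2) ≤ 1 := pow_le_one₀ (norm_nonneg _) hz.le
            have e3 := norm_one_sub_le hz.le
            have e4 : ‖z‖ ^ (N + 2) * ‖1 - z ^ 2‖ ≤ 1 * 2 :=
              mul_le_mul e2 e3 (norm_nonneg _) zero_le_one
            linarith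
        _ = 6 := by norm_num
    have h4 : x * 6 ≤ 12 * x * ‖1 - g x N u z‖ := by
      have : 12 * x * (1 / 2) ≤ 12 * x * ‖1 - g x N u z‖ :=
        mul_le_mul_of_nonneg_left hg1 (by linarith)
      linarith
    linarith
  have b6 : (1 : ℝ) ≤ ‖exp (x : ℂ)‖ := by
    rw [Complex.norm_exp]
    simpa using hx
  rw [norm_mul, norm_mul, norm_mul, norm_div, norm_div, norm_pow, norm_pow]
  set A := ‖1 + z‖ / ‖1 - z‖ ^ 3 with hA
  set B := ‖1 + P x N u z‖ / ‖1 - P x N u z‖ ^ 3 with hB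
  set G := ‖1 - g x N u z‖ with hG
  have hA0 : 0 ≤ A := by positivity
  have hG0 : 0 ≤ G := norm_nonneg _
  have c8 : 0 ≤ 1 - 8 * x := by linarith
  have c24 : 0 ≤ 1 - 24 * x := by linarith
  have c4 : 0 ≤ 1 - 4 * x := by linarith
  have c12 : 0 ≤ 1 - 12 * x := by linarith
  have hprod : 1 - 48 * x ≤ ((1 - 8 * x) * (1 - 24 * x)) * ((1 - 4 * x) * (1 - 12 * x)) := by
    have e1 : (1 - 32 * x) ≤ (1 - 8 * x) * (1 - 24 * x) := by nlinarith
    have e2 : (1 - 16 * x) ≤ (1 - 4 * x) * (1 - 12 * x) := by nlinarith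
    have e3 : 0 ≤ 1 - 32 * x := by linarith
    have e4 : 0 ≤ 1 - 16 * x := by linarith
    calc 1 - 48 * x ≤ (1 - 32 * x) * (1 - 16 * x) := by nlinarith
      _ ≤ _ := mul_le_mul e1 e2 e4 (by positivity)
  calc (1 - 48 * x) * (A * G)
      ≤ (((1 - 8 * x) * (1 - 24 * x)) * ((1 - 4 * x) * (1 - 12 * x))) * (A * G) :=
        mul_le_mul_of_nonneg_right hprod (by positivity)
    _ = ((1 - 8 * x) * (1 - 24 * x) * A) * ((1 - 4 * x) * ((1 - 12 * x) * G)) := by ring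
    _ ≤ B * (‖exp (-(x : ℂ) * W N u z)‖ * ‖1 - x * (z * W' N u z)‖) := by
        apply mul_le_mul b3 _ (by positivity) (le_trans (by positivity) b3)
        exact mul_le_mul b4 b5 (by positivity) (norm_nonneg _)
    _ ≤ ‖exp (x : ℂ)‖ * (B * (‖exp (-(x : ℂ) * W N u z)‖ * ‖1 - x * (z * W' N u z)‖)) := by
        have : 0 ≤ B * (‖exp (-(x : ℂ) * W N u z)‖ * ‖1 - x * (z * W' N u z)‖) := by positivity
        nlinarith

end Pool.Agent.Helper766.Mean
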