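import Pool.Agent.Helper766.Mean.Integ

set_option autoImplicit false

namespace Pool.Agent.Helper766.Mean

open Complex MeasureTheory Filter Topology

theorem integral_lower {h : ℝ → ℝ} (hc : Continuous h) (h0 : ∀ t, 0 ≤ h t) {c : ℝ}
    (hh : ∀ t, Real.pi / 4 ≤ t → t ≤ Real.pi / 2 → c ≤ h t) :
    c * (Real.pi / 4) ≤ ∫ t in (0 : ℝ)..(2 * Real.pi), h t := by
  have hp := Real.pi_pos
  have h1 : ∫ t in (Real.pi / 4)..(Real.pi / 2), (fun _ : ℝ => c) t ≤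
      ∫ t in (Real.pi / 4)..(Real.pi / 2), h t := by
    apply intervalIntegral.integral_mono_on (by linarith)
    · exact continuous_const.intervalIntegrable _ _
    · exact hc.intervalIntegrable _ _
    · intro t ht
      exact hh t ht.1 ht.2
  have h2 : ∫ t in (Real.pi / 4)..(Real.pi / 2), h t ≤ ∫ t in (0 : ℝ)..(2 * Real.pi), h t := by
    apply intervalIntegral.integral_mono_interval (by positivity) (by linarith) (by linarith)
    · exact Filter.Eventually.of_forall (fun t => h0 t)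
    · exact hc.intervalIntegrable _ _
  rw [intervalIntegral.integral_const, smul_eq_mul] at h1
  nlinarith

theorem koebe_lower {r : ℝ} (hr : 0 < r) (hr1 : r < 1) {t : ℝ} (h0 : Real.pi / 4 ≤ t)
    (h1 : t ≤ Real.pi / 2) : 1 / 8 ≤ ‖deriv koebe ((r : ℂ) * exp ((t : ℂ) * I))‖ := by
  have hp := Real.pi_pos
  have hn := norm_circ hr.le t
  have hadd := normSq_one_add_circ r t
  set z := (r : ℂ) * exp ((t : ℂ) * I) with hz
  have hz1 : ‖z‖ < 1 := by rw [hn]; exact hr1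
  rw [deriv_koebe hz1, norm_div, norm_pow]
  have p1 : 0 < ‖1 - z‖ := norm_pos_iff.2 (one_sub_ne hz1)
  have hz2 : ‖1 - z‖ ≤ 2 := by
    calc ‖1 - z‖ ≤ ‖(1 : ℂ)‖ + ‖z‖ := norm_sub_le _ _
      _ ≤ 2 := by rw [norm_one]; linarith
  have hcos : 0 ≤ Real.cos t := Real.cos_nonneg_of_neg_pi_div_two_le_of_le (by linarith) h1
  have h3 : 1 ≤ ‖1 + z‖ := by
    have : (1 : ℝ) ^ 2 ≤ ‖1 + z‖ ^ 2 := by
      rw [hadd]; nlinarith [mul_nonneg hr.le hcos, sq_nonneg r]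
    exact le_of_sq_le_sq this (norm_nonneg _)
  rw [le_div_iff₀ (by positivity)]
  have h4 : ‖1 - z‖ ^ 3 ≤ 2 ^ 3 := pow_le_pow_left₀ (norm_nonneg _) hz2 3
  linarith

theorem koebe_rpow_lower {lam : ℝ} (h1 : 2 / 5 < lam) (h2 : lam < 2 / 3) {r : ℝ} (hr : 0 < r)
    (hr1 : r < 1) {t : ℝ} (h0 : Real.pi / 4 ≤ t) (ht : t ≤ Real.pi / 2) :
    1 / 8 ≤ ‖deriv koebe ((r : ℂ) * exp ((t : ℂ) * I))‖ ^ lam := by
  have h3 := koebe_lower hr hr1 h0 ht
  calc (1 / 8 : ℝ) = (1 / 8 : ℝ) ^ (1 : ℝ) := (Real.rpow_one _).symm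
    _ ≤ (1 / 8 : ℝ) ^ lam :=
        Real.rpow_le_rpow_of_exponent_ge (by norm_num) (by norm_num) (by linarith)
    _ ≤ _ := Real.rpow_le_rpow (by norm_num) h3 (by linarith)

theorem g_lower {N : ℕ} (hN : 1 ≤ N) {x r : ℝ} (hx : 0 ≤ x) (hxN : x * N = 1 / 40)
    (hr : r = 1 - 1 / (2 * N)) {t : ℝ} (h0 : Real.pi / 4 ≤ t) (h1 : t ≤ Real.pi / 2) :
    1 / 160 ≤ ‖g x N 1 ((r : ℂ) * exp ((t : ℂ) * I))‖ := by
  have hp := Real.pi_pos
  have hN' : (1 : ℝ) ≤ N := by exact_mod_cast hN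
  have hr0 : 1 / 2 ≤ r := by
    rw [hr]
    have : 1 / (2 * (N : ℝ)) ≤ 1 / 2 := by
      apply div_le_div_of_nonneg_left <;> linarith
    linarith
  have hn := norm_circ (r := r) (by linarith) t
  have hsq := circ_sq r t
  have hsub := normSq_one_sub_circ (r ^ 2) (2 * t)
  rw [← hsq] at hsub
  set z := (r : ℂ) * exp ((t : ℂ) * I) with hz
  have hcos : Real.cos (2 * t) ≤ 0 :=
    Real.cos_nonpos_of_pi_div_two_le_of_le (by linarith) (by linarith)
  have h3 : 1 ≤ ‖1 - z ^ 2‖ := by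
    have : (1 : ℝ) ^ 2 ≤ ‖1 - z ^ 2‖ ^ 2 := by
      rw [hsub]
      nlinarith [mul_nonneg (sq_nonneg r) (neg_nonneg.2 hcos), sq_nonneg (r ^ 2)]
    exact le_of_sq_le_sq this (norm_nonneg _)
  have h4 : 1 / 2 ≤ r ^ N := by
    have hb := one_add_mul_le_pow (a := -(1 / (2 * (N : ℝ)))) (by
      have : 1 / (2 * (N : ℝ)) ≤ 1 / 2 := by
        apply div_le_div_of_nonneg_left <;> linarith
      linarith) N
    have e : (1 : ℝ) + N * -(1 / (2 * (N : ℝ))) = 1 / 2 := by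
      field_simp
      norm_num
    have e2 : 1 + -(1 / (2 * (N : ℝ))) = r := by rw [hr]; ring
    rw [e, e2] at hb
    exact hb
  unfold g
  rw [norm_mul, norm_mul, norm_mul, norm_one, norm_pow, norm_pow, hn, one_mul]
  have h5 : ‖(x : ℂ) * N / 2‖ = 1 / 80 := by
    rw [norm_div, norm_mul, Complex.norm_real, Real.norm_of_nonneg hx, Complex.norm_natCast, hxN]
    norm_num
  rw [h5]
  have h6 : (1 : ℝ) ≤ ‖1 - z ^ 2‖ ^ 2 := by nlinarith
  have h7 : (1 / 2 : ℝ) * 1 ≤ r ^ N * ‖1 - z ^ 2‖ ^ 2 :=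
    mul_le_mul h4 h6 (by norm_num) (by linarith)
  linarith

theorem continuous_g (x : ℝ) (N : ℕ) (u : ℂ) (r : ℝ) :
    Continuous (fun t : ℝ => g x N u ((r : ℂ) * exp ((t : ℂ) * I))) := by
  unfold g
  fun_prop

theorem pointwise {lam : ℝ} (h1 : 2 / 5 < lam) (h2 : lam < 2 / 3) {x : ℝ} (hx : 0 ≤ x) {N : ℕ}
    (hN : 1 ≤ N) (hxN : x * N ≤ 1 / 40) (hx1 : 48 * x ≤ 1 / 2) {z : ℂ} (hz : ‖z‖ < 1) :
    4 * (1 - 48 * x) * (‖deriv koebe z‖ ^ lam * (1 + lam ^ 2 / 8 * ‖g x N 1 z‖ ^ 2)) ≤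
      ‖deriv (F x N 1) z‖ ^ lam + ‖deriv (F x N (-1)) z‖ ^ lam + ‖deriv (F x N I) z‖ ^ lam +
        ‖deriv (F x N (-I)) z‖ ^ lam := by
  have hx48 : x ≤ 1 / 48 := by linarith
  have hw := norm_g_le hx N hxN (u := 1) norm_one hz.le
  have havg := avg_ineq h1.le h2.le hw
  set w := g x N 1 z with hwdef
  have gu : ∀ u : ℂ, g x N u z = u * w := by
    intro u; rw [hwdef]; unfold g; ring
  set K := ‖deriv koebe z‖ with hK
  have hK0 : 0 ≤ K := norm_nonneg _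
  have key : ∀ u : ℂ, ‖u‖ = 1 → (1 - 48 * x) * (K ^ lam * ‖1 - u * w‖ ^ lam) ≤
      ‖deriv (F x N u) z‖ ^ lam := by
    intro u hu
    have h3 := lower hx N hN hxN hx48 hu hz
    rw [gu u] at h3
    have h4 : 0 ≤ (1 - 48 * x) * (K * ‖1 - u * w‖) :=
      mul_nonneg (by linarith) (mul_nonneg hK0 (norm_nonneg _))
    have h5 := Real.rpow_le_rpow h4 h3 (by linarith : 0 ≤ lam)
    rw [Real.mul_rpow (by linarith) (mul_nonneg hK0 (norm_nonneg _)),
      Real.mul_rpow hK0 (norm_nonneg _)] at h5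
    have h6 : (1 - 48 * x) ≤ (1 - 48 * x) ^ lam := by
      calc (1 - 48 * x) = (1 - 48 * x) ^ (1 : ℝ) := (Real.rpow_one _).symm
        _ ≤ _ := Real.rpow_le_rpow_of_exponent_ge (by linarith) (by linarith) (by linarith)
    refine le_trans ?_ h5
    apply mul_le_mul_of_nonneg_right h6
    exact mul_nonneg (Real.rpow_nonneg hK0 _) (Real.rpow_nonneg (norm_nonneg _) _)
  have k1 := key 1 norm_one
  have k2 := key (-1) (by simp)
  have k3 := key I (by simp)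
  have k4 := key (-I) (by simp)
  rw [one_mul] at k1
  have hKl : 0 ≤ K ^ lam := Real.rpow_nonneg hK0 _
  have h7 : (1 - 48 * x) * (K ^ lam * (4 * (1 + lam ^ 2 / 8 * ‖w‖ ^ 2))) ≤ (1 - 48 * x) *
      (K ^ lam * (‖1 - w‖ ^ lam + ‖1 - (-1) * w‖ ^ lam + ‖1 - I * w‖ ^ lam +
        ‖1 - (-I) * w‖ ^ lam)) :=
    mul_le_mul_of_nonneg_left (mul_le_mul_of_nonneg_left havg hKl) (by linarith)
  have h8 : (1 - 48 * x) * (K ^ lam * (‖1 - w‖ ^ lam + ‖1 - (-1) * w‖ ^ lam +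
      ‖1 - I * w‖ ^ lam + ‖1 - (-I) * w‖ ^ lam)) =
      (1 - 48 * x) * (K ^ lam * ‖1 - w‖ ^ lam) + (1 - 48 * x) * (K ^ lam * ‖1 - (-1) * w‖ ^ lam) +
      (1 - 48 * x) * (K ^ lam * ‖1 - I * w‖ ^ lam) +
      (1 - 48 * x) * (K ^ lam * ‖1 - (-I) * w‖ ^ lam) := by ring
  have h9 : 4 * (1 - 48 * x) * (K ^ lam * (1 + lam ^ 2 / 8 * ‖w‖ ^ 2)) =
      (1 - 48 * x) * (K ^ lam * (4 * (1 + lam ^ 2 / 8 * ‖w‖ ^ 2))) := by ring
  rw [h9]
  linarith

/-- the integral of `‖f'‖^lam` over the circle -/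
noncomputable def A (lam r : ℝ) (f : ℂ → ℂ) : ℝ :=
  ∫ t in (0 : ℝ)..(2 * Real.pi), ‖deriv f ((r : ℂ) * exp ((t : ℂ) * I))‖ ^ lam

theorem sum_lower {lam : ℝ} (h1 : 2 / 5 < lam) (h2 : lam < 2 / 3) {x : ℝ} (hx : 0 ≤ x) {N : ℕ}
    (hN : 1 ≤ N) (hxN : x * N = 1 / 40) (hx1 : 48 * x ≤ 1 / 2) {r : ℝ}
    (hr : r = 1 - 1 / (2 * N)) :
    4 * (1 - 48 * x) * (A lam r koebe + lam ^ 2 / 8 * (1 / 8 * (1 / 160) ^ 2 * (Real.pi / 4))) ≤
      A lam r (F x N 1) + A lam r (F x N (-1)) + A lam r (F x N I) + A lam r (F x N (-I)) := by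
  have hp := Real.pi_pos
  have hN' : (1 : ℝ) ≤ N := by exact_mod_cast hN
  have hq : 0 < 1 / (2 * (N : ℝ)) := by positivity
  have hr0 : 1 / 2 ≤ r := by
    rw [hr]
    have : 1 / (2 * (N : ℝ)) ≤ 1 / 2 := by
      apply div_le_div_of_nonneg_left <;> linarith
    linarith
  have hr1 : r < 1 := by rw [hr]; linarith
  have cK := continuous_integrand koebe_diff (by linarith : 0 ≤ r) hr1 (by linarith : 0 ≤ lam)
  have cF : ∀ u : ℂ, ‖u‖ = 1 → Continuous (fun t : ℝ =>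
      ‖deriv (F x N u) ((r : ℂ) * exp ((t : ℂ) * I))‖ ^ lam) := fun u hu =>
    continuous_integrand (classS_F hx N hN hxN.le hu).1 (by linarith) hr1 (by linarith)
  have c1 := cF 1 norm_one
  have c2 := cF (-1) (by simp)
  have c3 := cF I (by simp)
  have c4 := cF (-I) (by simp)
  have cg : Continuous (fun t : ℝ => ‖g x N 1 ((r : ℂ) * exp ((t : ℂ) * I))‖ ^ 2) :=
    (continuous_g x N 1 r).norm.pow 2
  have cJ : Continuous (fun t : ℝ => ‖deriv koebe ((r : ℂ) * exp ((t : ℂ) * I))‖ ^ lam *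
      ‖g x N 1 ((r : ℂ) * exp ((t : ℂ) * I))‖ ^ 2) := cK.mul cg
  have hJ := integral_lower cJ (fun t => mul_nonneg (Real.rpow_nonneg (norm_nonneg _) _)
    (sq_nonneg _)) (c := 1 / 8 * (1 / 160) ^ 2) (by
      intro t ht0 ht1
      have a1 := koebe_rpow_lower h1 h2 (by linarith : 0 < r) hr1 ht0 ht1
      have a2 := g_lower hN hx hxN hr ht0 ht1
      have a3 : (1 / 160 : ℝ) ^ 2 ≤ ‖g x N 1 ((r : ℂ) * exp ((t : ℂ) * I))‖ ^ 2 :=
        pow_le_pow_left₀ (by norm_num) a2 2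
      exact mul_le_mul a1 a3 (by norm_num) (by linarith))
  have hmono := intervalIntegral.integral_mono_on (μ := volume) (a := 0) (b := 2 * Real.pi)
    (f := fun t : ℝ => 4 * (1 - 48 * x) * (‖deriv koebe ((r : ℂ) * exp ((t : ℂ) * I))‖ ^ lam +
      lam ^ 2 / 8 * (‖deriv koebe ((r : ℂ) * exp ((t : ℂ) * I))‖ ^ lam *
        ‖g x N 1 ((r : ℂ) * exp ((t : ℂ) * I))‖ ^ 2)))
    (g := fun t : ℝ => ‖deriv (F x N 1) ((r : ℂ) * exp ((t : ℂ) * I))‖ ^ lam +
      ‖deriv (F x N (-1)) ((r : ℂ) * exp ((t : ℂ) * I))‖ ^ lam +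
      ‖deriv (F x N I) ((r : ℂ) * exp ((t : ℂ) * I))‖ ^ lam +
      ‖deriv (F x N (-I)) ((r : ℂ) * exp ((t : ℂ) * I))‖ ^ lam) (by positivity)
    ((continuous_const.mul (cK.add (continuous_const.mul cJ))).intervalIntegrable _ _)
    ((((c1.add c2).add c3).add c4).intervalIntegrable _ _)
    (by
      intro t _
      have hz : ‖(r : ℂ) * exp ((t : ℂ) * I)‖ < 1 := by
        rw [norm_circ (by linarith)]; exact hr1
      have := pointwise h1 h2 hx hN hxN.le hx1 hz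
      calc _ = 4 * (1 - 48 * x) * (‖deriv koebe ((r : ℂ) * exp ((t : ℂ) * I))‖ ^ lam *
            (1 + lam ^ 2 / 8 * ‖g x N 1 ((r : ℂ) * exp ((t : ℂ) * I))‖ ^ 2)) := by ring
        _ ≤ _ := this)
  have cJ' : Continuous (fun t : ℝ => lam ^ 2 / 8 *
      (‖deriv koebe ((r : ℂ) * exp ((t : ℂ) * I))‖ ^ lam *
      ‖g x N 1 ((r : ℂ) * exp ((t : ℂ) * I))‖ ^ 2)) := continuous_const.mul cJ
  have c12 : Continuous (fun t : ℝ =>
      ‖deriv (F x N 1) ((r : ℂ) * exp ((t : ℂ) * I))‖ ^ lam +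
      ‖deriv (F x N (-1)) ((r : ℂ) * exp ((t : ℂ) * I))‖ ^ lam) := c1.add c2
  have c123 : Continuous (fun t : ℝ =>
      ‖deriv (F x N 1) ((r : ℂ) * exp ((t : ℂ) * I))‖ ^ lam +
      ‖deriv (F x N (-1)) ((r : ℂ) * exp ((t : ℂ) * I))‖ ^ lam +
      ‖deriv (F x N I) ((r : ℂ) * exp ((t : ℂ) * I))‖ ^ lam) := c12.add c3
  rw [intervalIntegral.integral_const_mul, intervalIntegral.integral_add
      (cK.intervalIntegrable _ _) (cJ'.intervalIntegrable _ _),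
    intervalIntegral.integral_const_mul,
    intervalIntegral.integral_add (c123.intervalIntegrable _ _)
      (c4.intervalIntegrable _ _),
    intervalIntegral.integral_add (c12.intervalIntegrable _ _)
      (c3.intervalIntegrable _ _),
    intervalIntegral.integral_add (c1.intervalIntegrable _ _) (c2.intervalIntegrable _ _)] at hmono
  unfold A
  refine le_trans ?_ hmono
  apply mul_le_mul_of_nonneg_left _ (by linarith)
  have hl2 : 0 ≤ lam ^ 2 / 8 := by positivity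
  have := mul_le_mul_of_nonneg_left hJ hl2
  linarith

theorem exists_N {s M e : ℝ} (hs : s < 1) (he : 0 < e) :
    ∃ N : ℕ, 3 ≤ N ∧ 24 / 5 * (M * (2 * (N : ℝ)) ^ (-(1 - s))) < e := by
  have h1 : Tendsto (fun N : ℕ => (2 * (N : ℝ)) ^ (-(1 - s))) atTop (𝓝 0) := by
    have h2 : Tendsto (fun N : ℕ => 2 * (N : ℝ)) atTop atTop :=
      Tendsto.const_mul_atTop (by norm_num) tendsto_natCast_atTop_atTop
    exact (tendsto_rpow_neg_atTop (by linarith : 0 < 1 - s)).comp h2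
  have h3 : Tendsto (fun N : ℕ => 24 / 5 * (M * (2 * (N : ℝ)) ^ (-(1 - s)))) atTop
      (𝓝 (24 / 5 * (M * 0))) := (h1.const_mul M).const_mul (24 / 5)
  rw [mul_zero, mul_zero] at h3
  have h4 := (h3.eventually (gt_mem_nhds he)).and (eventually_ge_atTop 3)
  obtain ⟨N, hN⟩ := h4.exists
  exact ⟨N, hN.2, hN.1⟩

theorem exists_better {lam : ℝ} (h1 : 2 / 5 < lam) (h2 : lam < 2 / 3) :
    ∃ f : ℂ → ℂ, ClassS f ∧ ∃ r : ℝ, r ∈ Set.Ioo (0 : ℝ) 1 ∧ 0 < A lam r koebe ∧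
      A lam r koebe < A lam r f := by
  have hp := Real.pi_pos
  set M := ∫ t in (0 : ℝ)..(2 * Real.pi), maj (3 * lam / 2) t with hM
  set J := lam ^ 2 / 8 * (1 / 8 * (1 / 160) ^ 2 * (Real.pi / 4)) with hJ
  have hJ0 : 0 < J := by
    have : 0 < lam := by linarith
    positivity
  obtain ⟨N, hN3, hN⟩ := exists_N (s := 3 * lam / 2) (M := M) (e := J / 2) (by linarith)
    (by linarith)
  have hN' : (3 : ℝ) ≤ N := by exact_mod_cast hN3
  have hNpos : (0 : ℝ) < N := by linarith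
  set x : ℝ := 1 / (40 * N) with hxdef
  have hx : 0 ≤ x := by positivity
  have hxN : x * N = 1 / 40 := by rw [hxdef]; field_simp
  have hx48 : 48 * x = 6 / (5 * N) := by rw [hxdef]; field_simp; norm_num
  have hx1 : 48 * x ≤ 1 / 2 := by
    rw [hx48, div_le_iff₀ (by positivity)]; linarith
  set r : ℝ := 1 - 1 / (2 * N) with hr
  have hq : 0 < 1 / (2 * (N : ℝ)) := by positivity
  have hq2 : 1 / (2 * (N : ℝ)) ≤ 1 / 2 := by
    apply div_le_div_of_nonneg_left <;> linarith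
  have hr0 : 1 / 2 ≤ r := by rw [hr]; linarith
  have hr1 : r < 1 := by rw [hr]; linarith
  have hsum := sum_lower h1 h2 hx (by omega : 1 ≤ N) hxN hx1 hr
  have cK := continuous_integrand koebe_diff (by linarith : 0 ≤ r) hr1 (by linarith : 0 ≤ lam)
  have hKpos : 0 < A lam r koebe := by
    have := integral_lower cK (fun t => Real.rpow_nonneg (norm_nonneg _) _) (c := 1 / 8)
      (fun t ht0 ht1 => koebe_rpow_lower h1 h2 (by linarith) hr1 ht0 ht1)
    unfold A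
    have h3 : 0 < 1 / 8 * (Real.pi / 4) := by positivity
    linarith
  have hKle : A lam r koebe ≤ 2 * (1 - r) ^ (-(3 * lam / 2)) * M :=
    koebe_integral_le h1 h2 hr0 hr1
  have h1r : 1 - r = (2 * (N : ℝ))⁻¹ := by rw [hr]; field_simp; ring
  have h5 : 48 * x * A lam r koebe < J / 2 := by
    have h2N : (0 : ℝ) < 2 * N := by positivity
    have h6 : 48 * x * (2 * (1 - r) ^ (-(3 * lam / 2)) * M) =
        24 / 5 * (M * (2 * (N : ℝ)) ^ (-(1 - 3 * lam / 2))) := by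
      rw [h1r, hx48, Real.inv_rpow h2N.le, Real.rpow_neg h2N.le, inv_inv]
      have h7 : (2 * (N : ℝ)) ^ (-(1 - 3 * lam / 2)) = (2 * (N : ℝ)) ^ (3 * lam / 2) / (2 * N) := by
        rw [show -(1 - 3 * lam / 2) = 3 * lam / 2 - 1 by ring, Real.rpow_sub_one h2N.ne']
      rw [h7]
      field_simp
      ring
    have h8 : 48 * x * A lam r koebe ≤ 48 * x * (2 * (1 - r) ^ (-(3 * lam / 2)) * M) :=
      mul_le_mul_of_nonneg_left hKle (by linarith)
    rw [h6] at h8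
    linarith
  have h9 : J / 2 ≤ (1 - 48 * x) * J := by
    have : (1 / 2 : ℝ) ≤ 1 - 48 * x := by linarith
    nlinarith
  have h10 : 4 * A lam r koebe < 4 * (1 - 48 * x) * (A lam r koebe + J) := by nlinarith
  have h11 := h10.trans_le hsum
  have hS : ∀ u : ℂ, ‖u‖ = 1 → ClassS (F x N u) := fun u hu =>
    classS_F hx N (by omega) hxN.le hu
  by_contra hcon
  push Not at hcon
  have q : ∀ u : ℂ, ‖u‖ = 1 → A lam r (F x N u) ≤ A lam r koebe := fun u hu =>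
    hcon _ (hS u hu) r ⟨by linarith, hr1⟩ hKpos
  have q1 := q 1 norm_one
  have q2 := q (-1) (by simp)
  have q3 := q I (by simp)
  have q4 := q (-I) (by simp)
  linarith

theorem main {lam : ℝ} (h1 : 2 / 5 < lam) (h2 : lam < 2 / 3) :
    (∃ f : ℂ → ℂ, ClassS f ∧ ∃ r : ℝ, r ∈ Set.Ioo (0 : ℝ) 1 ∧
      intMean lam r koebe < intMean lam r f) ∧ 1 < bestConst lam := by
  have hp := Real.pi_pos
  have hl : 0 < lam := by linarith
  obtain ⟨f, hf, r, hr, hK, hlt⟩ := exists_better h1 h2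
  have hmean : ∀ φ : ℂ → ℂ, intMean lam r φ = ((1 / (2 * Real.pi)) * A lam r φ) ^ (1 / lam) :=
    fun φ => rfl
  have h3 : intMean lam r koebe < intMean lam r f := by
    rw [hmean, hmean]
    apply Real.rpow_lt_rpow (by positivity) _ (by positivity)
    exact mul_lt_mul_of_pos_left hlt (by positivity)
  have h4 : 0 < intMean lam r koebe := by
    rw [hmean]
    apply Real.rpow_pos_of_pos
    positivity
  refine ⟨⟨f, hf, r, hr, h3⟩, ?_⟩
  have h5 : 1 < intMean lam r f / intMean lam r koebe := by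
    rw [lt_div_iff₀ h4]; linarith
  have h6 : (1 : ENNReal) < ENNReal.ofReal (intMean lam r f / intMean lam r koebe) := by
    rw [← ENNReal.ofReal_one]
    exact (ENNReal.ofReal_lt_ofReal_iff (by linarith)).2 h5
  refine h6.trans_le ?_
  unfold bestConst
  exact le_iSup_of_le f (le_iSup_of_le hf (le_iSup_of_le r (le_iSup_of_le hr le_rfl)))

end Pool.Agent.Helper766.Mean
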