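import Pool.Agent.Helper766.Mean.Defs

set_option autoImplicit false

namespace Pool.Agent.Helper766.Mean

open Complex

/-- the exponent -/
noncomputable def W (N : ℕ) (u z : ℂ) : ℂ := (1 - z ^ 2) + u * z ^ N * (1 - z ^ 2) ^ 2 / 2

/-- its derivative -/
noncomputable def W' (N : ℕ) (u z : ℂ) : ℂ :=
  -2 * z + u * (N * z ^ (N - 1) * (1 - z ^ 2) ^ 2 / 2 - 2 * z ^ (N + 1) * (1 - z ^ 2))

/-- the self map of the disc -/
noncomputable def P (x : ℝ) (N : ℕ) (u z : ℂ) : ℂ := z * exp (-(x : ℂ) * W N u z)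

theorem norm_one_sub_sq {z : ℂ} (hz : ‖z‖ ≤ 1) : ‖1 - z ^ 2‖ ^ 2 ≤ 2 * (1 - z ^ 2).re := by
  have h1 : ‖z ^ 2‖ ≤ 1 := by rw [norm_pow]; exact pow_le_one₀ (norm_nonneg _) hz
  set s := z ^ 2
  have h2 : s.re ^ 2 + s.im ^ 2 ≤ 1 := by
    have : ‖s‖ ^ 2 ≤ 1 := pow_le_one₀ (norm_nonneg _) h1
    rw [← Complex.normSq_eq_norm_sq, Complex.normSq_apply] at this
    nlinarith
  rw [← Complex.normSq_eq_norm_sq, Complex.normSq_apply]
  simp only [sub_re, one_re, sub_im, one_im]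
  nlinarith

theorem norm_one_sub_le {z : ℂ} (hz : ‖z‖ ≤ 1) : ‖1 - z ^ 2‖ ≤ 2 := by
  have h1 : ‖z ^ 2‖ ≤ 1 := by rw [norm_pow]; exact pow_le_one₀ (norm_nonneg _) hz
  calc ‖1 - z ^ 2‖ ≤ ‖(1 : ℂ)‖ + ‖z ^ 2‖ := norm_sub_le _ _
    _ ≤ 2 := by rw [norm_one]; linarith

theorem norm_second (N : ℕ) {u z : ℂ} (hu : ‖u‖ = 1) (hz : ‖z‖ ≤ 1) :
    ‖u * z ^ N * (1 - z ^ 2) ^ 2 / 2‖ ≤ ‖1 - z ^ 2‖ ^ 2 / 2 := by
  rw [norm_div, norm_mul, norm_mul, hu, norm_pow, norm_pow]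
  have h2 : ‖(2 : ℂ)‖ = 2 := by simp
  rw [h2, one_mul]
  have : ‖z‖ ^ N ≤ 1 := pow_le_one₀ (norm_nonneg _) hz
  have h3 : 0 ≤ ‖1 - z ^ 2‖ ^ 2 := by positivity
  nlinarith

theorem norm_W_le (N : ℕ) {u z : ℂ} (hu : ‖u‖ = 1) (hz : ‖z‖ ≤ 1) :
    ‖W N u z‖ ≤ 2 * ‖1 - z ^ 2‖ := by
  have h1 := norm_second N hu hz
  have h2 := norm_one_sub_le hz
  have h3 : ‖W N u z‖ ≤ ‖1 - z ^ 2‖ + ‖u * z ^ N * (1 - z ^ 2) ^ 2 / 2‖ := norm_add_le _ _
  have h4 := norm_nonneg (1 - z ^ 2)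
  nlinarith

theorem re_W_nonneg (N : ℕ) {u z : ℂ} (hu : ‖u‖ = 1) (hz : ‖z‖ ≤ 1) : 0 ≤ (W N u z).re := by
  have h1 := norm_second N hu hz
  have h2 := norm_one_sub_sq hz
  have h3 := Complex.abs_re_le_norm (u * z ^ N * (1 - z ^ 2) ^ 2 / 2)
  have h4 := neg_abs_le (u * z ^ N * (1 - z ^ 2) ^ 2 / 2).re
  unfold W
  rw [add_re]
  linarith

theorem hasDerivAt_W (N : ℕ) (hN : 1 ≤ N) (u z : ℂ) : HasDerivAt (W N u) (W' N u z) z := by
  have h1 : HasDerivAt (fun w : ℂ => 1 - w ^ 2) (-(2 * z)) z := by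
    have := (hasDerivAt_pow 2 z).const_sub (1 : ℂ)
    simpa using this
  have h2 : HasDerivAt (fun w : ℂ => w ^ N) ((N : ℂ) * z ^ (N - 1)) z := hasDerivAt_pow N z
  have h3 := ((h2.const_mul u).mul (h1.pow 2)).div_const 2
  have h4 := h1.add h3
  have h5 : W N u = (fun w : ℂ => 1 - w ^ 2) + fun w : ℂ => (u * w ^ N * (1 - w ^ 2) ^ 2) / 2 := by
    funext w; rfl
  rw [h5]
  refine h4.congr_deriv ?_
  unfold W'
  obtain ⟨m, rfl⟩ : ∃ m, N = m + 1 := ⟨N - 1, by omega⟩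
  simp only [Nat.add_sub_cancel, Nat.cast_add, Nat.cast_one, Nat.cast_ofNat, Pi.pow_apply]
  ring

theorem norm_W'_le (N : ℕ) (hN : 1 ≤ N) {u z : ℂ} (hu : ‖u‖ = 1) (hz : ‖z‖ ≤ 1) :
    ‖W' N u z‖ ≤ 2 * N + 6 := by
  have h1 := norm_one_sub_le hz
  have h0 := norm_nonneg (1 - z ^ 2)
  have e1 : ‖z‖ ^ (N - 1) ≤ 1 := pow_le_one₀ (norm_nonneg _) hz
  have e2 : ‖z‖ ^ (N + 1) ≤ 1 := pow_le_one₀ (norm_nonneg _) hz
  have hNN : (0 : ℝ) ≤ N := Nat.cast_nonneg N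
  have a1 : ‖(N : ℂ) * z ^ (N - 1) * (1 - z ^ 2) ^ 2 / 2‖ ≤ 2 * N := by
    rw [norm_div, norm_mul, norm_mul, norm_pow, norm_pow, Complex.norm_natCast]
    have h2 : ‖(2 : ℂ)‖ = 2 := by simp
    rw [h2]
    have h3 : ‖1 - z ^ 2‖ ^ 2 ≤ 4 := by nlinarith
    have h4 : (N : ℝ) * ‖z‖ ^ (N - 1) ≤ N := by nlinarith
    have h5 : 0 ≤ (N : ℝ) * ‖z‖ ^ (N - 1) := by positivity
    have h6 : (N : ℝ) * ‖z‖ ^ (N - 1) * ‖1 - z ^ 2‖ ^ 2 ≤ N * 4 := by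
      apply mul_le_mul h4 h3 (by positivity) hNN
    linarith
  have a2 : ‖2 * z ^ (N + 1) * (1 - z ^ 2)‖ ≤ 4 := by
    rw [norm_mul, norm_mul, norm_pow]
    have h2 : ‖(2 : ℂ)‖ = 2 := by simp
    rw [h2]
    have h5 : 0 ≤ ‖z‖ ^ (N + 1) := by positivity
    nlinarith [mul_nonneg h5 h0]
  have a3 : ‖(-2 : ℂ) * z‖ ≤ 2 := by
    rw [norm_mul]
    have h2 : ‖(-2 : ℂ)‖ = 2 := by simp
    rw [h2]; linarith
  unfold W'
  calc _ ≤ ‖(-2 : ℂ) * z‖ + ‖u * (N * z ^ (N - 1) * (1 - z ^ 2) ^ 2 / 2 -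
        2 * z ^ (N + 1) * (1 - z ^ 2))‖ := norm_add_le _ _
    _ ≤ 2 + (2 * N + 4) := by
        rw [norm_mul u, hu, one_mul]
        have := norm_sub_le ((N : ℂ) * z ^ (N - 1) * (1 - z ^ 2) ^ 2 / 2)
          (2 * z ^ (N + 1) * (1 - z ^ 2))
        linarith
    _ = _ := by ring

theorem hasDerivAt_P (x : ℝ) (N : ℕ) (hN : 1 ≤ N) (u z : ℂ) :
    HasDerivAt (P x N u) (exp (-(x : ℂ) * W N u z) * (1 - x * (z * W' N u z))) z := by
  have h1 := ((hasDerivAt_W N hN u z).const_mul (-(x : ℂ))).cexp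
  have h2 := (hasDerivAt_id z).mul h1
  refine (h2.congr_deriv ?_)
  simp only [id]
  ring

theorem exp_sub_one_le {x : ℝ} (hx : 0 ≤ x) {w : ℂ} (hw : x * ‖w‖ ≤ 1) :
    ‖exp (-(x : ℂ) * w) - 1‖ ≤ 2 * (x * ‖w‖) := by
  have h1 : ‖-(x : ℂ) * w‖ = x * ‖w‖ := by
    rw [norm_mul, norm_neg, Complex.norm_real, Real.norm_of_nonneg hx]
  have := Complex.norm_exp_sub_one_le (x := -(x : ℂ) * w) (by rw [h1]; exact hw)
  rwa [h1] at this

theorem norm_P_lt {x : ℝ} (hx : 0 ≤ x) (N : ℕ) {u z : ℂ} (hu : ‖u‖ = 1) (hz : ‖z‖ < 1) :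
    ‖P x N u z‖ < 1 := by
  unfold P
  rw [norm_mul, Complex.norm_exp]
  have h1 : (-(x : ℂ) * W N u z).re ≤ 0 := by
    have : (-(x : ℂ) * W N u z).re = -(x * (W N u z).re) := by simp
    rw [this]
    have := mul_nonneg hx (re_W_nonneg N hu hz.le)
    linarith
  have h2 : Real.exp (-(x : ℂ) * W N u z).re ≤ 1 := Real.exp_le_one_iff.2 h1
  have h3 := norm_nonneg z
  have h4 := Real.exp_pos (-(x : ℂ) * W N u z).re
  nlinarith

theorem norm_sub_P {x : ℝ} (hx : 0 ≤ x) (hx1 : x ≤ 1 / 40) (N : ℕ) {u z : ℂ} (hu : ‖u‖ = 1)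
    (hz : ‖z‖ ≤ 1) : ‖z - P x N u z‖ ≤ 4 * x * ‖1 - z ^ 2‖ := by
  have h1 := norm_W_le N hu hz
  have h2 := norm_one_sub_le hz
  have h3 := norm_nonneg (1 - z ^ 2)
  have h4 : x * ‖W N u z‖ ≤ 1 := by
    have := norm_nonneg (W N u z)
    nlinarith
  have h5 := exp_sub_one_le hx h4
  have h6 : z - P x N u z = -(z * (exp (-(x : ℂ) * W N u z) - 1)) := by unfold P; ring
  rw [h6, norm_neg, norm_mul]
  have h7 := norm_nonneg z
  have h8 : ‖z‖ * ‖exp (-(x : ℂ) * W N u z) - 1‖ ≤ 1 * (2 * (x * ‖W N u z‖)) :=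
    mul_le_mul hz h5 (norm_nonneg _) zero_le_one
  have h9 : x * ‖W N u z‖ ≤ x * (2 * ‖1 - z ^ 2‖) := mul_le_mul_of_nonneg_left h1 hx
  linarith

theorem injOn_P {x : ℝ} (hx : 0 ≤ x) (N : ℕ) (hN : 1 ≤ N) (hxN : x * N ≤ 1 / 40) {u : ℂ}
    (hu : ‖u‖ = 1) : Set.InjOn (P x N u) (Metric.ball 0 1) := by
  have hN' : (1 : ℝ) ≤ N := by exact_mod_cast hN
  have hx1 : x ≤ 1 / 40 := by nlinarith
  have key : ∀ z ∈ Metric.ball (0 : ℂ) 1, ∀ w ∈ Metric.ball (0 : ℂ) 1,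
      ‖(P x N u w - w) - (P x N u z - z)‖ ≤ (1 / 2) * ‖w - z‖ := by
    intro z hz w hw
    refine (convex_ball (0 : ℂ) 1).norm_image_sub_le_of_norm_hasDerivWithin_le
      (f := fun y => P x N u y - y)
      (f' := fun y => exp (-(x : ℂ) * W N u y) * (1 - x * (y * W' N u y)) - 1) ?_ ?_ hz hw
    · intro y _
      exact ((hasDerivAt_P x N hN u y).sub (hasDerivAt_id y)).hasDerivWithinAt
    · intro y hy
      have hy1 : ‖y‖ ≤ 1 := by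
        rw [mem_ball_zero_iff] at hy; exact hy.le
      have h1 := norm_W_le N hu hy1
      have h2 := norm_one_sub_le hy1
      have h4 : x * ‖W N u y‖ ≤ 1 := by
        have := norm_nonneg (W N u y)
        nlinarith
      have h5 := exp_sub_one_le hx h4
      have h5' : ‖exp (-(x : ℂ) * W N u y) - 1‖ ≤ 8 * x := by
        have : x * ‖W N u y‖ ≤ x * 4 := mul_le_mul_of_nonneg_left (by linarith) hx
        linarith
      have h6 : ‖exp (-(x : ℂ) * W N u y)‖ ≤ 1 := by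
        rw [Complex.norm_exp]
        apply Real.exp_le_one_iff.2
        have : (-(x : ℂ) * W N u y).re = -(x * (W N u y).re) := by simp
        rw [this]
        have := mul_nonneg hx (re_W_nonneg N hu hy1)
        linarith
      have h7 := norm_W'_le N hN hu hy1
      have h8 : ‖(x : ℂ) * (y * W' N u y)‖ ≤ x * (8 * N) := by
        rw [norm_mul, norm_mul, Complex.norm_real, Real.norm_of_nonneg hx]
        apply mul_le_mul_of_nonneg_left _ hx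
        have := norm_nonneg y
        have := norm_nonneg (W' N u y)
        nlinarith
      have h9 : exp (-(x : ℂ) * W N u y) * (1 - x * (y * W' N u y)) - 1 =
          (exp (-(x : ℂ) * W N u y) - 1) - exp (-(x : ℂ) * W N u y) * (x * (y * W' N u y)) := by
        ring
      rw [h9]
      have h10 := norm_sub_le (exp (-(x : ℂ) * W N u y) - 1)
        (exp (-(x : ℂ) * W N u y) * (x * (y * W' N u y)))
      rw [norm_mul] at h10
      have h11 : ‖exp (-(x : ℂ) * W N u y)‖ * ‖(x : ℂ) * (y * W' N u y)‖ ≤ 1 * (x * (8 * N)) :=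
        mul_le_mul h6 h8 (norm_nonneg _) zero_le_one
      have : x * (8 * N) ≤ 8 / 40 := by linarith
      linarith
  intro z hz w hw hzw
  have h := key z hz w hw
  rw [hzw] at h
  have h2 : (P x N u w - w) - (P x N u w - z) = -(w - z) := by ring
  rw [h2, norm_neg] at h
  have h3 : ‖w - z‖ ≤ 0 := by linarith [norm_nonneg (w - z)]
  have h4 : w - z = 0 := norm_le_zero_iff.1 h3
  exact (sub_eq_zero.1 h4).symm

end Pool.Agent.Helper766.Mean
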